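import Pool.Agent.Helper86.AN.Stmts

set_option autoImplicit false

/-!
MP_4042d8_co (Ando): module EV, evaluation by inner vertices.
-/

namespace Pool.Agent.Helper30.AN

open Pool.Agent.Helper86.AN Finset

variable {V : Type} [Fintype V] [DecidableEq V]

theorem ev_pow {s : Equiv.Perm V} {A : Finset V} (hS : Sinv s A) (n : ℕ) (v : V) :
    (s ^ n) v ∈ A ↔ v ∈ A := by
  induction n with
  | zero => simp
  | succ n ih =>
    rw [pow_succ', Equiv.Perm.mul_apply, hS, ih]

/-- the vertices counted in `cnt` -/
def evF (s : Equiv.Perm V) (A : Finset V) (c : V → Bool) (b : Bool) (k : ℕ) : Finset V :=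
  A.filter (fun v => ∀ i ∈ range k, c ((s ^ i) v) = b)

theorem ev_memF {s : Equiv.Perm V} {A : Finset V} {c : V → Bool} {b : Bool} {k : ℕ} {v : V} :
    v ∈ evF s A c b k ↔ v ∈ A ∧ ∀ i < k, c ((s ^ i) v) = b := by
  simp [evF]

theorem ev_inn {s : Equiv.Perm V} {A : Finset V} (hS : Sinv s A) {c : V → Bool} {b : Bool} {k : ℕ}
    {v : V} (h : v ∈ evF s A c b k) (j : ℕ) (hj : j + 3 ≤ k) : (s ^ (j + 1)) v ∈ inn s A c b := by
  rw [ev_memF] at h
  obtain ⟨hA, hc⟩ := h
  simp only [inn, mem_filter]
  refine ⟨(ev_pow hS _ _).2 hA, hc (j + 1) (by omega), ?_, ?_⟩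
  · have h1 := hc (j + 2) (by omega)
    rw [pow_succ', Equiv.Perm.mul_apply] at h1
    exact h1
  · rw [pow_succ', Equiv.Perm.mul_apply, Equiv.symm_apply_apply]
    exact hc j (by omega)

theorem ev_three {s : Equiv.Perm V} {A : Finset V} (hS : Sinv s A) (c : V → Bool) (b : Bool) :
    (evF s A c b 3).card = (inn s A c b).card := by
  refine Finset.card_bij (fun v _ => s v) ?_ ?_ ?_
  · intro v hv
    have := ev_inn hS hv 0 le_rfl
    simpa using this
  · intro v _ w _ h
    exact s.injective h
  · intro x hx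
    simp only [inn, mem_filter] at hx
    obtain ⟨hA, h1, h2, h3⟩ := hx
    refine ⟨s.symm x, ?_, by simp⟩
    rw [ev_memF]
    refine ⟨?_, ?_⟩
    · rw [← hS, Equiv.apply_symm_apply]; exact hA
    · intro i hi
      interval_cases i
      · simpa using h3
      · simpa using h1
      · rw [pow_two, Equiv.Perm.mul_apply, Equiv.apply_symm_apply]; exact h2

theorem ev_anti {s : Equiv.Perm V} {A : Finset V} {c : V → Bool} {b : Bool} {k l : ℕ}
    (h : k ≤ l) : evF s A c b l ⊆ evF s A c b k := by
  intro v hv
  rw [ev_memF] at hv ⊢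
  exact ⟨hv.1, fun i hi => hv.2 i (by omega)⟩

/-- the number of inner vertices determines everything: no inner vertex -/
theorem ev_case0 {s : Equiv.Perm V} {A : Finset V} (hS : Sinv s A) {c : V → Bool} {b : Bool}
    (h : inn s A c b = ∅) (k : ℕ) (hk : 3 ≤ k) : (evF s A c b k).card = 0 := by
  rw [card_eq_zero, eq_empty_iff_forall_notMem]
  intro v hv
  have := ev_inn hS hv 0 hk
  rw [h] at this
  exact absurd this (notMem_empty _)

/-- one inner vertex -/
theorem ev_case1 {s : Equiv.Perm V} {A : Finset V} (hS : Sinv s A) (hP : Per3 s A) {c : V → Bool}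
    {b : Bool} {a : V} (h : inn s A c b = {a}) (k : ℕ) (hk : 3 ≤ k) :
    (evF s A c b k).card = if k = 3 then 1 else 0 := by
  by_cases h3 : k = 3
  · subst h3
    rw [if_pos rfl, ev_three hS, h, card_singleton]
  · rw [if_neg h3, card_eq_zero, eq_empty_iff_forall_notMem]
    intro v hv
    have h1 := ev_inn hS hv 0 hk
    have h2 := ev_inn hS hv 1 (by omega)
    rw [h, mem_singleton] at h1 h2
    have hA : (s ^ 1) v ∈ A := (ev_pow hS _ _).2 (ev_memF.1 hv).1
    have h4 : s ((s ^ 1) v) = (s ^ 1) v := by
      rw [← Equiv.Perm.mul_apply, ← pow_succ', h2]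
      exact h1.symm
    exact (hP _ hA).1 h4

/-- two consecutive inner vertices -/
theorem ev_case2 {s : Equiv.Perm V} {A : Finset V} (hS : Sinv s A) (hP : Per3 s A) {c : V → Bool}
    {b : Bool} {a : V} (h : inn s A c b = {a, s a}) (k : ℕ) (hk : 3 ≤ k) :
    (evF s A c b k).card = if k = 3 then 2 else if k = 4 then 1 else 0 := by
  have ha : a ∈ inn s A c b := by rw [h]; simp
  have hsa : s a ∈ inn s A c b := by rw [h]; simp
  simp only [inn, mem_filter] at ha hsa
  obtain ⟨haA, ha1, ha2, ha3⟩ := ha
  obtain ⟨_, _, hsa2, _⟩ := hsa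
  obtain ⟨p1, p2⟩ := hP a haA
  -- the only vertex which starts four equal colours
  have key : ∀ l, 4 ≤ l → ∀ v ∈ evF s A c b l, v = s.symm a := by
    intro l hl v hv
    have h1 := ev_inn hS hv 0 (by omega)
    have h2 := ev_inn hS hv 1 (by omega)
    rw [h, mem_insert, mem_singleton] at h1 h2
    simp only [zero_add, pow_one] at h1
    have e2 : (s ^ (1 + 1)) v = s (s v) := by
      rw [pow_succ', Equiv.Perm.mul_apply, pow_one]
    rw [e2] at h2
    rcases h1 with h1 | h1
    · rw [← h1, Equiv.symm_apply_apply]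
    · have hva : v = a := s.injective h1
      rw [hva] at h2
      rcases h2 with h2 | h2
      · exact absurd h2 p2
      · exact absurd (s.injective h2) p1
  by_cases h3 : k = 3
  · subst h3
    rw [if_pos rfl, ev_three hS, h, card_pair (Ne.symm p1)]
  · rw [if_neg h3]
    by_cases h4 : k = 4
    · subst h4
      rw [if_pos rfl]
      have : evF s A c b 4 = {s.symm a} := by
        ext v
        rw [mem_singleton]
        refine ⟨key 4 le_rfl v, ?_⟩
        rintro rfl
        rw [ev_memF]
        refine ⟨?_, ?_⟩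
        · rw [← hS, Equiv.apply_symm_apply]; exact haA
        · intro i hi
          interval_cases i
          · simpa using ha3
          · simpa using ha1
          · rw [pow_two, Equiv.Perm.mul_apply, Equiv.apply_symm_apply]; exact ha2
          · rw [pow_succ', pow_two, Equiv.Perm.mul_apply, Equiv.Perm.mul_apply,
              Equiv.apply_symm_apply]
            exact hsa2
      rw [this, card_singleton]
    · rw [if_neg h4, card_eq_zero, eq_empty_iff_forall_notMem]
      intro v hv
      have hva := key k (by omega) v hv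
      have h5 := ev_inn hS hv 2 (by omega)
      have e3 : (s ^ (2 + 1)) v = s (s a) := by
        rw [pow_succ', pow_two, Equiv.Perm.mul_apply, Equiv.Perm.mul_apply, hva,
          Equiv.apply_symm_apply]
      rw [e3, h, mem_insert, mem_singleton] at h5
      rcases h5 with h5 | h5
      · exact absurd h5 p2
      · exact absurd (s.injective h5) p1

theorem st_EV (hCR : ST_CRIT) (hP2 : ST_P2) : ST_EV := by
  intro V _ _ s A m c hS hP hI hB hcase
  have hF : ∀ b k, cnt s A c b k = (evF s A c b k).card := fun b k => rfl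
  -- equal numbers of true and false vertices
  have hcard : (A.filter (fun v => c v = true)).card = (A.filter (fun v => c v = false)).card := by
    refine Finset.card_bij (fun v _ => m v) ?_ ?_ ?_
    · intro v hv
      rw [mem_filter] at hv ⊢
      refine ⟨(hI v hv.1).1, ?_⟩
      rw [hB v hv.1, hv.2]; rfl
    · intro v hv w hw h
      rw [mem_filter] at hv hw
      rw [← (hI v hv.1).2.1, ← (hI w hw.1).2.1, h]
    · intro v hv
      rw [mem_filter] at hv
      refine ⟨m v, ?_, (hI v hv.1).2.1⟩
      rw [mem_filter]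
      refine ⟨(hI v hv.1).1, ?_⟩
      rw [hB v hv.1, hv.2]; rfl
  have hall : (∀ k, 3 ≤ k → (evF s A c true k).card = (evF s A c false k).card) ∧
      ∀ b, (evF s A c b 5).card = 0 := by
    rcases hcase with ⟨h1, h2⟩ | ⟨a, b, h1, h2⟩ | ⟨a, b, h1, h2⟩
    · refine ⟨fun k hk => ?_, fun b => ?_⟩
      · rw [ev_case0 hS h1 k hk, ev_case0 hS h2 k hk]
      · cases b
        · exact ev_case0 hS h2 5 (by norm_num)
        · exact ev_case0 hS h1 5 (by norm_num)
    · refine ⟨fun k hk => ?_, fun b' => ?_⟩
      · rw [ev_case1 hS hP h1 k hk, ev_case1 hS hP h2 k hk]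
      · cases b'
        · rw [ev_case1 hS hP h2 5 (by norm_num)]; rfl
        · rw [ev_case1 hS hP h1 5 (by norm_num)]; rfl
    · refine ⟨fun k hk => ?_, fun b' => ?_⟩
      · rw [ev_case2 hS hP h1 k hk, ev_case2 hS hP h2 k hk]
      · cases b'
        · rw [ev_case2 hS hP h2 5 (by norm_num)]; rfl
        · rw [ev_case2 hS hP h1 5 (by norm_num)]; rfl
  apply hCR V s A c hS
  · intro v hv
    by_contra hcon
    push Not at hcon
    have h1 : v ∈ evF s A c (c v) 5 := by
      rw [ev_memF]
      exact ⟨hv, fun i _ => hcon i⟩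
    have h2 := hall.2 (c v)
    rw [card_eq_zero] at h2
    rw [h2] at h1
    exact notMem_empty _ h1
  · intro k hk
    by_cases h3 : 3 ≤ k
    · rw [hF, hF]; exact hall.1 k h3
    · have h12 : k = 1 ∨ k = 2 := by omega
      rcases h12 with rfl | rfl
      · have e : ∀ b, cnt s A c b 1 = (A.filter (fun v => c v = b)).card := by
          intro b
          unfold cnt
          congr 1
          ext v
          simp
        rw [e, e, hcard]
      · exact hP2 V s A c hS hcard

end Pool.Agent.Helper30.AN
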